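import Pool.Agent.W601.RP.Stm2

set_option autoImplicit false
open scoped Classical
open Filter Topology

namespace Pool.Agent.W797.RP
open Pool.Agent.W601.RP

theorem nullC_zero : NullC 0 := by
  intro A _ η hη
  have : {t | t ∈ A ∧ η ≤ ‖(0 : ℕ → TT) t‖} = ∅ := by
    ext t
    simp only [Pi.zero_apply, norm_zero, Set.mem_ofPred_eq, Set.mem_empty_iff_false, iff_false,
      not_and, not_le]
    exact fun _ => hη
  rw [this]
  exact Set.finite_empty

theorem nullC_add {f g : ℕ → TT} (hf : NullC f) (hg : NullC g) : NullC (f + g) := by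
  intro A hA η hη
  refine ((hf A hA (η / 2) (by linarith)).union (hg A hA (η / 2) (by linarith))).subset ?_
  rintro t ⟨ht, h⟩
  by_contra hcon
  rw [Set.mem_union, not_or] at hcon
  have h1 : ‖f t‖ < η / 2 := by
    by_contra h1
    exact hcon.1 ⟨ht, not_lt.mp h1⟩
  have h2 : ‖g t‖ < η / 2 := by
    by_contra h2
    exact hcon.2 ⟨ht, not_lt.mp h2⟩
  have h3 := norm_add_le (f t) (g t)
  have h4 : η ≤ ‖f t + g t‖ := h
  linarith

theorem nullC_neg {f : ℕ → TT} (hf : NullC f) : NullC (-f) := by
  intro A hA η hη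
  refine (hf A hA η hη).subset ?_
  rintro t ⟨ht, h⟩
  refine ⟨ht, ?_⟩
  rw [Pi.neg_apply, norm_neg] at h
  exact h

theorem pre_take (q : ℕ → ℕ) {n m : ℕ} (h : n ≤ m) : (pre q m).take n = pre q n := by
  unfold pre
  rw [← List.map_take, List.take_range, min_eq_left h]

theorem pre_length (q : ℕ → ℕ) (n : ℕ) : (pre q n).length = n := by
  unfold pre
  rw [List.length_map, List.length_range]

theorem nullC_x (hN : S_NODE) (q : ℕ → ℕ) (hq : q ∈ QQ) : NullC (x q) := by
  intro A hA η hη
  set S : Set ℕ := {t | t ∈ A ∧ pre q (nL (lt t)) = sL (lt t) ∧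
    (lt t).1 ≤ ⌊1 / (2 * η)⌋₊} with hS
  have hSfin : S.Finite := by
    apply Set.Finite.of_finite_image (f := fun t => (lt t).1)
    · refine (Set.finite_Iic ⌊1 / (2 * η)⌋₊).subset ?_
      rintro _ ⟨t, ht, rfl⟩
      exact ht.2.2
    · have key : ∀ t ∈ S, ∀ u ∈ S, Lt t u → (lt t).1 < (lt u).1 := by
        intro t ht u hu htu
        obtain ⟨_, _, _, hF⟩ := hN.2.2.2.1 t u htu
        apply hF.2
        rw [← hu.2.1, pre_take q hF.1.le]
        exact ht.2.1
      intro t ht u hu htu
      by_contra hne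
      have htu' : (lt t).1 = (lt u).1 := htu
      rcases hA t ht.1 u hu.1 hne with h | h
      · have := key t ht u hu h
        omega
      · have := key u hu t ht h
        omega
  refine ((hq.2 A hA η hη).union hSfin).subset ?_
  rintro t ⟨ht, h⟩
  unfold x at h
  split_ifs at h with h1 h2
  · right
    refine ⟨ht, h2, ?_⟩
    have h3 : ‖(((1 / (2 * ((lt t).1 : ℝ))) : ℝ) : TT)‖ ≤ 1 / (2 * ((lt t).1 : ℝ)) := by
      have h4 := AddCircle.norm_eq (p := (1:ℝ)) (x := 1 / (2 * ((lt t).1 : ℝ)))
      have h5 : ‖(((1 / (2 * ((lt t).1 : ℝ))) : ℝ) : TT)‖ ≤ |1 / (2 * ((lt t).1 : ℝ))| := by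
        rw [h4]
        simp only [inv_one, one_mul, mul_one]
        have h6 := round_le (1 / (2 * ((lt t).1 : ℝ))) 0
        simpa using h6
      rwa [abs_of_nonneg (by positivity)] at h5
    have h7 : η ≤ 1 / (2 * ((lt t).1 : ℝ)) := h.trans h3
    have hc : (0:ℝ) < (lt t).1 := by
      rcases Nat.eq_zero_or_pos (lt t).1 with h0 | h0
      · rw [h0] at h7
        norm_num at h7
        linarith
      · exact_mod_cast h0
    apply Nat.le_floor
    rw [le_div_iff₀ (by positivity)] at h7 ⊢
    linarith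
  · rw [norm_zero] at h
    linarith
  · left
    exact ⟨ht, h⟩

theorem null : S_NODE → S_XV → S_NULL := by
  intro hN hX
  constructor
  · intro h hh
    unfold H at hh
    induction hh using AddSubgroup.closure_induction with
    | mem f hf =>
      obtain ⟨q, hq, rfl⟩ := hf
      exact nullC_x hN q hq
    | zero => exact nullC_zero
    | add f g _ _ hf hg => exact nullC_add hf hg
    | neg f _ hf => exact nullC_neg hf
  · intro h hh
    unfold H at hh
    induction hh using AddSubgroup.closure_induction with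
    | mem f hf =>
      obtain ⟨q, hq, rfl⟩ := hf
      exact fun t => hX q t
    | zero => intro t; simp
    | add f g _ _ hf hg => intro t; rw [Pi.add_apply, smul_add, hf t, hg t, add_zero]
    | neg f _ hf => intro t; rw [Pi.neg_apply, smul_neg, hf t, neg_zero]

end Pool.Agent.W797.RP
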